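import Mathlib

set_option autoImplicit false

/-!
# The tolerant learning hierarchy is dense

`E ≤ F` holds if and only if for every nonempty c.e. set `L` there is a finite `D ⊆ L` such that
all c.e. sets `L'` with `D ⊆ L' ⊆ L` that are `E`-equivalent to `L` are `F`-equivalent to `L`
(`learnLE_iff`). If `E < F`, then this fails for `F`, `E` at some `L0`. For `L ⊂ L0` let `d(L)` be the
least element of `L0 \ L`. The relation `G` is obtained from `E ∩ F` by putting into the class of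
`L0` all sets `L` that are `F`-equivalent to `L0` with `d(L) ∈ Z`, where `Z` is a suitable set.
-/

namespace Pool.Agent.Results.MP_555fce_lc.HierarchyDense

open Filter

/-- Acceptable numberings of the partial computable functions: `φ` is partial computable and
every partial computable `g` of two arguments reduces to `φ` by a computable function. -/
def Acceptable (φ : ℕ → ℕ →. ℕ) : Prop :=
  Partrec₂ φ ∧ ∀ g : ℕ → ℕ →. ℕ, Partrec₂ g →
    ∃ h : ℕ → ℕ, Computable h ∧ ∀ x, φ (h x) = g x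

/-- The `e`-th c.e. set. -/
def W (φ : ℕ → ℕ →. ℕ) (e : ℕ) : Set ℕ := {x | (φ e x).Dom}

/-- Tolerance relations: equivalence relations on the indices that contain equality of c.e.
sets. (`V e` is the `e`-th c.e. set.) -/
def Tolerance (V : ℕ → Set ℕ) (E : ℕ → ℕ → Prop) : Prop :=
  Equivalence E ∧ ∀ e e', V e = V e' → E e e'

/-- The sequence `(μ(0), ..., μ(s-1))`. -/
def seg (μ : ℕ → ℕ) (s : ℕ) : List ℕ := (List.range s).map μ

/-- The family `K` is `E`-learnable. -/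
def Learnable (V : ℕ → Set ℕ) (E : ℕ → ℕ → Prop) (K : Set (Set ℕ)) : Prop :=
  ∃ M : List ℕ → ℕ, ∀ e, V e ∈ K → ∀ μ : ℕ → ℕ, Set.range μ = V e →
    ∃ i, E i e ∧ ∀ᶠ s in atTop, M (seg μ s) = i

/-- Families of nonempty c.e. sets. -/
def Family (V : ℕ → Set ℕ) (K : Set (Set ℕ)) : Prop :=
  ∀ A ∈ K, A.Nonempty ∧ ∃ e, V e = A

/-- `E ≤_Learn F`. -/
def LearnLE (V : ℕ → Set ℕ) (E F : ℕ → ℕ → Prop) : Prop :=
  ∀ K, Family V K → Learnable V E K → Learnable V F K

/-- `E <_Learn F`. -/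
def LearnLT (V : ℕ → Set ℕ) (E F : ℕ → ℕ → Prop) : Prop := LearnLE V E F ∧ ¬ LearnLE V F E

variable {V : ℕ → Set ℕ}

/-! ### Learnability and tell-tales -/

theorem seg_length (μ : ℕ → ℕ) (s : ℕ) : (seg μ s).length = s := by
  unfold seg
  simp

theorem mem_seg {μ : ℕ → ℕ} {s x : ℕ} : x ∈ seg μ s ↔ ∃ k < s, μ k = x := by
  unfold seg
  simp

/-- Locking sequences exist. -/
theorem locking {M : List ℕ → ℕ} {L : Set ℕ} (hL : L.Nonempty) (hLc : L.Countable)
    (hM : ∀ μ : ℕ → ℕ, Set.range μ = L → ∃ i, ∀ᶠ s in atTop, M (seg μ s) = i) :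
    ∃ σ : List ℕ, (∀ x ∈ σ, x ∈ L) ∧ ∀ τ : List ℕ, (∀ x ∈ τ, x ∈ L) → M (σ ++ τ) = M σ := by
  by_contra hcon
  push Not at hcon
  have hch : ∀ σ : List ℕ, ∃ τ : List ℕ, (∀ x ∈ σ, x ∈ L) →
      (∀ x ∈ τ, x ∈ L) ∧ M (σ ++ τ) ≠ M σ := by
    intro σ
    by_cases h : ∀ x ∈ σ, x ∈ L
    · obtain ⟨τ, h1, h2⟩ := hcon σ h
      exact ⟨τ, fun _ => ⟨h1, h2⟩⟩
    · exact ⟨[], fun h' => absurd h' h⟩
  choose τ hτ using hch
  obtain ⟨x, hx⟩ := hLc.exists_eq_range hL
  let s : ℕ → List ℕ := fun n => Nat.rec [] (fun n l => (l ++ τ l) ++ [x n]) n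
  have hs0 : s 0 = [] := rfl
  have hs1 : ∀ n, s (n + 1) = (s n ++ τ (s n)) ++ [x n] := fun n => rfl
  have hxL : ∀ n, x n ∈ L := fun n => by rw [hx]; exact ⟨n, rfl⟩
  have hsL : ∀ n, ∀ y ∈ s n, y ∈ L := by
    intro n
    induction n with
    | zero => intro y hy; rw [hs0] at hy; exact absurd hy (by simp)
    | succ n ih =>
      intro y hy
      rw [hs1, List.mem_append, List.mem_append, List.mem_singleton] at hy
      rcases hy with (hy | hy) | hy
      · exact ih y hy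
      · exact (hτ (s n) ih).1 y hy
      · rw [hy]; exact hxL n
  have hpre1 : ∀ n, s n <+: s (n + 1) := fun n => ⟨τ (s n) ++ [x n], by
    rw [hs1, List.append_assoc]⟩
  have hpre : ∀ m n, m ≤ n → s m <+: s n := by
    intro m n hmn
    induction n, hmn using Nat.le_induction with
    | base => exact List.prefix_rfl
    | succ n _ ih => exact ih.trans (hpre1 n)
  have hlen : ∀ n, n ≤ (s n).length := by
    intro n
    induction n with
    | zero => exact Nat.zero_le _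
    | succ n ih =>
      rw [hs1, List.length_append, List.length_append, List.length_singleton]
      omega
  let μ : ℕ → ℕ := fun k => (s (k + 1)).getD k 0
  have hμ : ∀ n k, k < (s n).length → (s n)[k]? = some (μ k) := by
    intro n k hk
    have h1 : k < (s (k + 1)).length := lt_of_lt_of_le (Nat.lt_succ_self k) (hlen (k + 1))
    have h2 : (s (k + 1))[k]? = some (μ k) := by
      show (s (k + 1))[k]? = some ((s (k + 1)).getD k 0)
      rw [List.getD_eq_getElem?_getD, List.getElem?_eq_getElem h1]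
      rfl
    rcases le_total n (k + 1) with h | h
    · obtain ⟨z, hz⟩ := hpre n (k + 1) h
      rw [← h2, ← hz, List.getElem?_append_left hk]
    · obtain ⟨z, hz⟩ := hpre (k + 1) n h
      rw [← h2, ← hz, List.getElem?_append_left h1]
  have hseg : ∀ n, ∀ l : List ℕ, l <+: s n → seg μ l.length = l := by
    intro n l hl
    refine List.ext_getElem? fun k => ?_
    rcases lt_or_ge k l.length with hk | hk
    · have h1 := hμ n k (hk.trans_le hl.length_le)
      obtain ⟨z, hz⟩ := hl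
      rw [← hz, List.getElem?_append_left hk] at h1
      rw [h1]
      unfold seg
      rw [List.getElem?_map, List.getElem?_range hk]
      rfl
    · rw [List.getElem?_eq_none (by rw [seg_length]; exact hk), List.getElem?_eq_none hk]
  have hrange : Set.range μ = L := by
    ext y
    constructor
    · rintro ⟨k, rfl⟩
      have h1 : k < (s (k + 1)).length := lt_of_lt_of_le (Nat.lt_succ_self k) (hlen (k + 1))
      exact hsL (k + 1) _ (List.mem_of_getElem? (hμ (k + 1) k h1))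
    · intro hy
      rw [hx] at hy
      obtain ⟨n, rfl⟩ := hy
      have h1 : x n ∈ seg μ (s (n + 1)).length := by
        rw [hseg (n + 1) _ List.prefix_rfl, hs1]
        simp
      obtain ⟨k, -, hk⟩ := mem_seg.1 h1
      exact ⟨k, hk⟩
  obtain ⟨i, hi⟩ := hM μ hrange
  obtain ⟨N, hN⟩ := hi.exists_forall_of_atTop
  have h1 := hN (s N).length (hlen N)
  have h2 := hN (s N ++ τ (s N)).length (by
    rw [List.length_append]
    have := hlen N
    omega)
  rw [hseg N _ List.prefix_rfl] at h1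
  rw [hseg (N + 1) _ ⟨[x N], rfl⟩] at h2
  exact (hτ (s N) (hsL N)).2 (h2.trans h1.symm)

/-- The tell-tale condition. -/
def TT (V : ℕ → Set ℕ) (E : ℕ → ℕ → Prop) (K : Set (Set ℕ)) : Prop :=
  ∀ e, V e ∈ K → ∃ D : Finset ℕ, (D : Set ℕ) ⊆ V e ∧
    ∀ e', V e' ∈ K → (D : Set ℕ) ⊆ V e' → V e' ⊆ V e → E e' e

theorem tt_of_learnable {E : ℕ → ℕ → Prop} (hE : Equivalence E) {K : Set (Set ℕ)}
    (hK : ∀ A ∈ K, A.Nonempty) (h : Learnable V E K) : TT V E K := by
  obtain ⟨M, hM⟩ := h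
  intro e he
  obtain ⟨σ, hσ, hlock⟩ := locking (M := M) (hK _ he) (Set.to_countable _) fun μ hμ => by
    obtain ⟨i, -, hi⟩ := hM e he μ hμ
    exact ⟨i, hi⟩
  refine ⟨σ.toFinset, fun x hx => hσ x (by simpa using hx), ?_⟩
  -- every enumeration of a set between that starts with `σ` leads to `M σ`
  have key : ∀ e', V e' ∈ K → (σ.toFinset : Set ℕ) ⊆ V e' → V e' ⊆ V e → E (M σ) e' := by
    intro e' he' h1 h2
    obtain ⟨x, hx⟩ := (Set.to_countable (V e')).exists_eq_range (hK _ he')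
    let μ : ℕ → ℕ := fun k => if h : k < σ.length then σ[k] else x (k - σ.length)
    have hrange : Set.range μ = V e' := by
      ext y
      constructor
      · rintro ⟨k, rfl⟩
        show (if h : k < σ.length then σ[k] else x (k - σ.length)) ∈ V e'
        split_ifs with h
        · exact h1 (by simp)
        · rw [hx]; exact ⟨_, rfl⟩
      · intro hy
        rw [hx] at hy
        obtain ⟨n, rfl⟩ := hy
        refine ⟨σ.length + n, ?_⟩
        show (if h : σ.length + n < σ.length then σ[σ.length + n] else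
          x (σ.length + n - σ.length)) = x n
        rw [dif_neg (by omega), Nat.add_sub_cancel_left]
    obtain ⟨i, hi, hi'⟩ := hM e' he' μ hrange
    obtain ⟨N, hN⟩ := hi'.exists_forall_of_atTop
    have h3 := hN (σ.length + N) (by omega)
    have h4 : seg μ (σ.length + N) = σ ++ (List.range N).map x := by
      unfold seg
      rw [List.range_add, List.map_append, List.map_map]
      congr 1
      · refine List.ext_getElem (by simp) fun k hk hk' => ?_
        rw [List.getElem_map, List.getElem_range]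
        show (if h : k < σ.length then σ[k] else x (k - σ.length)) = _
        rw [dif_pos hk']
      · refine List.map_congr_left fun k _ => ?_
        show (if h : σ.length + k < σ.length then σ[σ.length + k] else
          x (σ.length + k - σ.length)) = x k
        rw [dif_neg (by omega), Nat.add_sub_cancel_left]
    rw [h4, hlock _ (fun y hy => ?_)] at h3
    · rw [h3]; exact hi
    · obtain ⟨k, -, rfl⟩ := List.mem_map.1 hy
      apply h2
      rw [hx]
      exact ⟨k, rfl⟩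
  intro e' he' h1 h2
  exact hE.trans (hE.symm (key e' he' h1 h2)) (key e he (fun x hx => hσ x (by simpa using hx))
    (Set.Subset.refl _))

theorem learnable_of_tt {E : ℕ → ℕ → Prop} (hE : Equivalence E) {K : Set (Set ℕ)}
    (h : TT V E K) : Learnable V E K := by
  classical
  have hD : ∀ e, ∃ D : Finset ℕ, V e ∈ K → (D : Set ℕ) ⊆ V e ∧
      ∀ e', V e' ∈ K → (D : Set ℕ) ⊆ V e' → V e' ⊆ V e → E e' e := by
    intro e
    by_cases he : V e ∈ K
    · obtain ⟨D, hD⟩ := h e he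
      exact ⟨D, fun _ => hD⟩
    · exact ⟨∅, fun h' => absurd h' he⟩
  choose D hD using hD
  let P : ℕ → List ℕ → Prop := fun e σ => V e ∈ K ∧ (∀ x ∈ D e, x ∈ σ) ∧ ∀ x ∈ σ, x ∈ V e
  refine ⟨fun σ => if h : ∃ e, P e σ then Nat.find h else 0, ?_⟩
  intro e0 he0 μ hμ
  let Q : ℕ → Prop := fun e => V e ∈ K ∧ (D e : Set ℕ) ⊆ V e0 ∧ V e0 ⊆ V e
  have hQ0 : Q e0 := ⟨he0, (hD e0 he0).1, Set.Subset.refl _⟩
  have hex : ∃ e, Q e := ⟨e0, hQ0⟩
  have hfind := Nat.find_spec hex
  have hE' : E (Nat.find hex) e0 := hE.symm ((hD _ hfind.1).2 e0 he0 hfind.2.1 hfind.2.2)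
  refine ⟨Nat.find hex, hE', ?_⟩
  have ev : ∀ e, Q e → ∀ᶠ s in atTop, P e (seg μ s) := by
    intro e he
    have h1 : ∀ᶠ s in atTop, ∀ x ∈ D e, x ∈ seg μ s := by
      rw [eventually_all_finset]
      intro x hx
      have hx' := he.2.1 (Finset.mem_coe.2 hx)
      rw [← hμ] at hx'
      obtain ⟨k, hk⟩ := hx'
      filter_upwards [eventually_gt_atTop k] with s hs
      exact mem_seg.2 ⟨k, hs, hk⟩
    filter_upwards [h1] with s hs
    refine ⟨he.1, hs, fun x hx => he.2.2 ?_⟩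
    obtain ⟨k, -, rfl⟩ := mem_seg.1 hx
    rw [← hμ]
    exact ⟨k, rfl⟩
  have ev' : ∀ e, ¬ Q e → ∀ᶠ s in atTop, ¬ P e (seg μ s) := by
    intro e he
    by_cases h1 : V e ∈ K
    · by_cases h2 : V e0 ⊆ V e
      · -- the tell-tale is not contained
        have h3 : ¬ (D e : Set ℕ) ⊆ V e0 := fun h => he ⟨h1, h, h2⟩
        obtain ⟨x, hx, hx'⟩ := Set.not_subset.1 h3
        refine Eventually.of_forall fun s hs => hx' ?_
        obtain ⟨k, -, hk⟩ := mem_seg.1 (hs.2.1 x (Finset.mem_coe.1 hx))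
        rw [← hμ]
        exact ⟨k, hk⟩
      · obtain ⟨x, hx, hx'⟩ := Set.not_subset.1 h2
        rw [← hμ] at hx
        obtain ⟨k, hk⟩ := hx
        filter_upwards [eventually_gt_atTop k] with s hs hP
        exact hx' (hP.2.2 x (mem_seg.2 ⟨k, hs, hk⟩))
    · exact Eventually.of_forall fun s hs => h1 hs.1
  have ev'' : ∀ᶠ s in atTop, ∀ e ∈ Finset.range (Nat.find hex), ¬ P e (seg μ s) := by
    rw [eventually_all_finset]
    intro e he
    exact ev' e (Nat.find_min hex (Finset.mem_range.1 he))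
  filter_upwards [ev _ hfind, ev''] with s h1 h2
  have hex' : ∃ e, P e (seg μ s) := ⟨_, h1⟩
  rw [dif_pos hex']
  refine le_antisymm (Nat.find_min' hex' h1) ?_
  by_contra hcon
  rw [not_le] at hcon
  exact h2 _ (Finset.mem_range.2 hcon) (Nat.find_spec hex')

/-! ### The local description of the order -/

/-- The local condition at the index `e`. -/
def Loc (V : ℕ → Set ℕ) (E F : ℕ → ℕ → Prop) (e : ℕ) : Prop :=
  ∃ D : Finset ℕ, (D : Set ℕ) ⊆ V e ∧
    ∀ e', (D : Set ℕ) ⊆ V e' → V e' ⊆ V e → E e' e → F e' e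

theorem learnLE_iff {E F : ℕ → ℕ → Prop} (hE : Tolerance V E) (hF : Tolerance V F) :
    LearnLE V E F ↔ ∀ e, (V e).Nonempty → Loc V E F e := by
  constructor
  · intro h e hne
    let K : Set (Set ℕ) := {A | A.Nonempty ∧ ∃ e', V e' = A ∧ E e' e}
    have hK : Family V K := fun A hA => ⟨hA.1, by
      obtain ⟨e', h1, -⟩ := hA.2
      exact ⟨e', h1⟩⟩
    have hLE : Learnable V E K := by
      refine ⟨fun _ => e, fun e'' he'' μ _ => ⟨e, ?_, Eventually.of_forall fun _ => rfl⟩⟩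
      obtain ⟨-, e', h1, h2⟩ := he''
      exact hE.1.symm (hE.1.trans (hE.2 _ _ h1.symm) h2)
    have hTT := tt_of_learnable hF.1 (fun A hA => hA.1) (h K hK hLE)
    obtain ⟨D, h1, h2⟩ := hTT e ⟨hne, e, rfl, hE.1.refl e⟩
    obtain ⟨x, hx⟩ := hne
    refine ⟨insert x D, ?_, fun e' h3 h4 h5 => ?_⟩
    · rw [Finset.coe_insert]
      exact Set.insert_subset hx h1
    · rw [Finset.coe_insert] at h3
      exact h2 e' ⟨⟨x, h3 (Set.mem_insert _ _)⟩, e', rfl, h5⟩
        ((Set.subset_insert _ _).trans h3) h4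
  · intro h K hK hL
    refine learnable_of_tt hF.1 fun e he => ?_
    obtain ⟨D, h1, h2⟩ := tt_of_learnable hE.1 (fun A hA => (hK A hA).1) hL e he
    obtain ⟨D', h3, h4⟩ := h e (hK _ he).1
    classical
    refine ⟨D ∪ D', ?_, fun e' he' h5 h6 => ?_⟩
    · rw [Finset.coe_union]
      exact Set.union_subset h1 h3
    · rw [Finset.coe_union] at h5
      exact h4 e' (Set.subset_union_right.trans h5) h6
        (h2 e' he' (Set.subset_union_left.trans h5) h6)

/-! ### Density -/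

open Classical in
theorem dense_aux {E F : ℕ → ℕ → Prop} (hE : Tolerance V E) (hF : Tolerance V F)
    (h : LearnLT V E F) : ∃ G, Tolerance V G ∧ LearnLT V E G ∧ LearnLT V G F := by
  obtain ⟨hEF, hFE⟩ := h
  rw [learnLE_iff hE hF] at hEF
  rw [learnLE_iff hF hE] at hFE
  push Not at hFE
  obtain ⟨e0, hne, hloc⟩ := hFE
  have hloc' : ∀ D : Finset ℕ, (D : Set ℕ) ⊆ V e0 →
      ∃ e', (D : Set ℕ) ⊆ V e' ∧ V e' ⊆ V e0 ∧ F e' e0 ∧ ¬ E e' e0 := by
    intro D hD
    by_contra hcon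
    push Not at hcon
    exact hloc ⟨D, hD, fun e' h1 h2 h3 => hcon e' h1 h2 h3⟩
  -- the first missing element
  let isd : ℕ → ℕ → Prop := fun z e => z ∈ V e0 ∧ z ∉ V e ∧ ∀ y < z, y ∈ V e0 → y ∈ V e
  have isd_unique : ∀ z z' e, isd z e → isd z' e → z = z' := by
    intro z z' e h1 h2
    rcases lt_trichotomy z z' with h | h | h
    · exact absurd (h2.2.2 z h h1.1) h1.2.1
    · exact h
    · exact absurd (h1.2.2 z' h h2.1) h2.2.1
  have isd_exists : ∀ e, V e ⊆ V e0 → V e ≠ V e0 → ∃ z, isd z e := by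
    intro e h1 h2
    have h3 : ∃ z, z ∈ V e0 ∧ z ∉ V e := by
      by_contra hcon
      push Not at hcon
      exact h2 (Set.Subset.antisymm h1 hcon)
    refine ⟨Nat.find h3, (Nat.find_spec h3).1, (Nat.find_spec h3).2, fun y hy hy0 => ?_⟩
    by_contra hcon
    exact Nat.find_min h3 hy ⟨hy0, hcon⟩
  let Δ : Set ℕ := {z | ∃ e', V e' ⊆ V e0 ∧ isd z e' ∧ F e' e0 ∧ ¬ E e' e0}
  have hΔ : Δ.Infinite := by
    refine Set.infinite_of_forall_exists_gt fun n => ?_
    obtain ⟨e', h1, h2, h3, h4⟩ := hloc' ((Finset.range (n + 1)).filter fun y => y ∈ V e0)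
      (fun y hy => by simpa using (Finset.mem_filter.1 (Finset.mem_coe.1 hy)).2)
    obtain ⟨z, hz⟩ := isd_exists e' h2 (fun h => h4 (hE.2 _ _ h))
    refine ⟨z, ⟨e', h2, hz, h3, h4⟩, ?_⟩
    by_contra hcon
    exact hz.2.1 (h1 (Finset.mem_coe.2 (Finset.mem_filter.2
      ⟨Finset.mem_range.2 (by omega), hz.1⟩)))
  let f := hΔ.natEmbedding
  let Z : Set ℕ := Set.range fun k => (f (2 * k) : ℕ)
  let Z' : Set ℕ := Set.range fun k => (f (2 * k + 1) : ℕ)
  have hfinj : ∀ i j, (f i : ℕ) = f j → i = j := fun i j hij => f.injective (Subtype.ext hij)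
  have hZ : Z.Infinite := Set.infinite_range_of_injective fun i j hij => by
    have := hfinj _ _ hij
    omega
  have hZ' : Z'.Infinite := Set.infinite_range_of_injective fun i j hij => by
    have := hfinj _ _ hij
    omega
  have hdisj : ∀ z ∈ Z', z ∉ Z := by
    rintro z ⟨k, rfl⟩ ⟨l, hl⟩
    have := hfinj _ _ hl
    omega
  -- the new relation
  let Q : ℕ → Prop := fun e => V e ⊆ V e0 ∧ ∃ z ∈ Z, isd z e
  let G0 : ℕ → Prop := fun e => F e e0 ∧ (E e e0 ∨ Q e)
  let G : ℕ → ℕ → Prop := fun a b => (G0 a ∧ G0 b) ∨ (¬ G0 a ∧ ¬ G0 b ∧ E a b ∧ F a b)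
  have hQcongr : ∀ a b, V a = V b → Q a → Q b := by
    rintro a b hab ⟨h1, z, h2, h3⟩
    refine ⟨by rw [← hab]; exact h1, z, h2, h3.1, by rw [← hab]; exact h3.2.1, fun y hy hy0 => ?_⟩
    rw [← hab]
    exact h3.2.2 y hy hy0
  have hG0congr : ∀ a b, V a = V b → G0 a → G0 b := by
    rintro a b hab ⟨h1, h2⟩
    refine ⟨hF.1.trans (hF.1.symm (hF.2 _ _ hab)) h1, ?_⟩
    rcases h2 with h2 | h2
    · exact Or.inl (hE.1.trans (hE.1.symm (hE.2 _ _ hab)) h2)
    · exact Or.inr (hQcongr a b hab h2)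
  have hG : Tolerance V G := by
    refine ⟨⟨fun a => ?_, fun {a b} h => ?_, fun {a b c} h1 h2 => ?_⟩, fun a b hab => ?_⟩
    · by_cases h : G0 a
      · exact Or.inl ⟨h, h⟩
      · exact Or.inr ⟨h, h, hE.1.refl a, hF.1.refl a⟩
    · rcases h with ⟨h1, h2⟩ | ⟨h1, h2, h3, h4⟩
      · exact Or.inl ⟨h2, h1⟩
      · exact Or.inr ⟨h2, h1, hE.1.symm h3, hF.1.symm h4⟩
    · rcases h1 with ⟨a1, a2⟩ | ⟨a1, a2, a3, a4⟩
      · rcases h2 with ⟨b1, b2⟩ | ⟨b1, b2, b3, b4⟩
        · exact Or.inl ⟨a1, b2⟩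
        · exact absurd a2 b1
      · rcases h2 with ⟨b1, b2⟩ | ⟨b1, b2, b3, b4⟩
        · exact absurd b1 a2
        · exact Or.inr ⟨a1, b2, hE.1.trans a3 b3, hF.1.trans a4 b4⟩
    · by_cases h : G0 a
      · exact Or.inl ⟨h, hG0congr a b hab h⟩
      · exact Or.inr ⟨h, fun h' => h (hG0congr b a hab.symm h'), hE.2 _ _ hab, hF.2 _ _ hab⟩
  have hG0e0 : G0 e0 := ⟨hF.1.refl e0, Or.inl (hE.1.refl e0)⟩
  have hGF : ∀ a b, G a b → F a b := by
    rintro a b (⟨h1, h2⟩ | ⟨-, -, -, h⟩)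
    · exact hF.1.trans h1.1 (hF.1.symm h2.1)
    · exact h
  -- `E ≤ G`
  have le1 : ∀ e, (V e).Nonempty → Loc V E G e := by
    intro e hne'
    obtain ⟨D1, hD1, hD1'⟩ := hEF e hne'
    have finish : ∀ D : Finset ℕ, (D : Set ℕ) ⊆ V e →
        (∀ e', (D : Set ℕ) ⊆ V e' → V e' ⊆ V e → E e' e → F e' e → (G0 e' ↔ G0 e)) →
        Loc V E G e := by
      intro D hD hD'
      refine ⟨D1 ∪ D, ?_, fun e' h1 h2 h3 => ?_⟩
      · rw [Finset.coe_union]
        exact Set.union_subset hD1 hD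
      · rw [Finset.coe_union] at h1
        have h4 := hD1' e' (Set.subset_union_left.trans h1) h2 h3
        have h5 := hD' e' (Set.subset_union_right.trans h1) h2 h3 h4
        by_cases h6 : G0 e
        · exact Or.inl ⟨h5.2 h6, h6⟩
        · exact Or.inr ⟨fun h7 => h6 (h5.1 h7), h6, h3, h4⟩
    -- the value of `Q` is locally constant away from `V e0`
    have localQ : V e ≠ V e0 → ∃ D : Finset ℕ, (D : Set ℕ) ⊆ V e ∧
        ∀ e', (D : Set ℕ) ⊆ V e' → V e' ⊆ V e → (Q e' ↔ Q e) := by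
      intro hneq
      by_cases hsub : V e ⊆ V e0
      · obtain ⟨z, hz⟩ := isd_exists e hsub hneq
        refine ⟨(Finset.range z).filter fun y => y ∈ V e0, ?_, fun e' h1 h2 => ?_⟩
        · intro y hy
          have hy' := Finset.mem_filter.1 (Finset.mem_coe.1 hy)
          exact hz.2.2 y (Finset.mem_range.1 hy'.1) hy'.2
        · have hz' : isd z e' := ⟨hz.1, fun h => hz.2.1 (h2 h), fun y hy hy0 =>
            h1 (Finset.mem_coe.2 (Finset.mem_filter.2 ⟨Finset.mem_range.2 hy, hy0⟩))⟩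
          constructor
          · rintro ⟨-, z', h3, h4⟩
            rw [isd_unique z' z e' h4 hz'] at h3
            exact ⟨hsub, z, h3, hz⟩
          · rintro ⟨-, z', h3, h4⟩
            rw [isd_unique z' z e h4 hz] at h3
            exact ⟨h2.trans hsub, z, h3, hz'⟩
      · obtain ⟨x, hx, hx0⟩ := Set.not_subset.1 hsub
        refine ⟨{x}, by simpa using hx, fun e' h1 h2 => ⟨fun h3 => ?_, fun h3 => ?_⟩⟩
        · exact absurd (h3.1 (h1 (by simp))) hx0
        · exact absurd (h3.1 hx) hx0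
    by_cases hEe : E e e0
    · refine finish ∅ (by simp) fun e' _ _ h3 h4 => ⟨fun h => ⟨?_, Or.inl hEe⟩, fun h => ⟨?_, Or.inl
        (hE.1.trans h3 hEe)⟩⟩
      · exact hF.1.trans (hF.1.symm h4) h.1
      · exact hF.1.trans h4 h.1
    · have hneq : V e ≠ V e0 := fun h => hEe (hE.2 _ _ h)
      obtain ⟨D, hD, hD'⟩ := localQ hneq
      refine finish D hD fun e' h1 h2 h3 h4 => ?_
      have h5 := hD' e' h1 h2
      have h6 : ¬ E e' e0 := fun h => hEe (hE.1.trans (hE.1.symm h3) h)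
      constructor
      · rintro ⟨h7, h8⟩
        exact ⟨hF.1.trans (hF.1.symm h4) h7, Or.inr (h5.1 (h8.resolve_left h6))⟩
      · rintro ⟨h7, h8⟩
        exact ⟨hF.1.trans h4 h7, Or.inr (h5.2 (h8.resolve_left hEe))⟩
  -- finding elements of `Δ`
  have large : ∀ Y : Set ℕ, Y.Infinite → Y ⊆ Δ → ∀ D : Finset ℕ, (D : Set ℕ) ⊆ V e0 →
      ∃ z ∈ Y, ∃ e', (D : Set ℕ) ⊆ V e' ∧ V e' ⊆ V e0 ∧ isd z e' ∧ F e' e0 ∧ ¬ E e' e0 := by
    intro Y hY hYΔ D hD
    obtain ⟨z, hz, hz'⟩ := hY.exists_gt (D.sup id)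
    obtain ⟨e', h1, h2, h3, h4⟩ := hYΔ hz
    refine ⟨z, hz, e', fun y hy => ?_, h1, h2, h3, h4⟩
    have : y ≤ D.sup id := Finset.le_sup (f := id) (Finset.mem_coe.1 hy)
    exact h2.2.2 y (by omega) (hD hy)
  have hZΔ : Z ⊆ Δ := by
    rintro z ⟨k, rfl⟩
    exact (f (2 * k)).2
  have hZ'Δ : Z' ⊆ Δ := by
    rintro z ⟨k, rfl⟩
    exact (f (2 * k + 1)).2
  refine ⟨G, hG, ⟨(learnLE_iff hE hG).2 le1, ?_⟩, (learnLE_iff hG hF).2 fun e _ =>
    ⟨∅, by simp, fun e' _ _ h => hGF e' e h⟩, ?_⟩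
  · rw [learnLE_iff hG hE]
    intro hcon
    obtain ⟨D, hD, hD'⟩ := hcon e0 hne
    obtain ⟨z, hz, e', h1, h2, h3, h4, h5⟩ := large Z hZ hZΔ D hD
    exact h5 (hD' e' h1 h2 (Or.inl ⟨⟨h4, Or.inr ⟨h2, z, hz, h3⟩⟩, hG0e0⟩))
  · rw [learnLE_iff hF hG]
    intro hcon
    obtain ⟨D, hD, hD'⟩ := hcon e0 hne
    obtain ⟨z, hz, e', h1, h2, h3, h4, h5⟩ := large Z' hZ' hZ'Δ D hD
    rcases hD' e' h1 h2 h4 with ⟨⟨-, h6⟩, -⟩ | ⟨-, h6, -⟩
    · rcases h6 with h6 | ⟨-, z', h7, h8⟩
      · exact h5 h6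
      · rw [isd_unique z' z e' h8 h3] at h7
        exact hdisj z hz h7
    · exact h6 hG0e0

/-- **Theorem.** The tolerant learning hierarchy is dense. -/
theorem result (φ : ℕ → ℕ →. ℕ) (_hφ : Acceptable φ) (E F : ℕ → ℕ → Prop)
    (hE : Tolerance (W φ) E) (hF : Tolerance (W φ) F) (h : LearnLT (W φ) E F) :
    ∃ G, Tolerance (W φ) G ∧ LearnLT (W φ) E G ∧ LearnLT (W φ) G F :=
  dense_aux hE hF h

end Pool.Agent.Results.MP_555fce_lc.HierarchyDense
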